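import Mathlib

/-!
PROJECT ALLQ, block A over a number field: the norm `l1` of integer polynomials.
-/

set_option autoImplicit false

namespace Pool.Agent.Helper59.LE

open Finset Polynomial

/-- sum of the absolute values of the coefficients -/
noncomputable def l1 (a : Polynomial ℤ) : ℝ := ∑ i ∈ a.support, |((a.coeff i : ℤ) : ℝ)|

theorem l1_nonneg (a : Polynomial ℤ) : 0 ≤ l1 a := Finset.sum_nonneg fun _ _ => abs_nonneg _

theorem l1_of_subset (a : Polynomial ℤ) {s : Finset ℕ} (hs : a.support ⊆ s) :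
    l1 a = ∑ i ∈ s, |((a.coeff i : ℤ) : ℝ)| := by
  unfold l1
  refine Finset.sum_subset hs fun i _ hi => ?_
  rw [Polynomial.notMem_support_iff.1 hi, Int.cast_zero, abs_zero]

theorem coeff_le_l1 (a : Polynomial ℤ) (i : ℕ) : |((a.coeff i : ℤ) : ℝ)| ≤ l1 a := by
  by_cases h : i ∈ a.support
  · exact Finset.single_le_sum (f := fun i => |((a.coeff i : ℤ) : ℝ)|) (fun _ _ => abs_nonneg _) h
  · rw [Polynomial.notMem_support_iff.1 h, Int.cast_zero, abs_zero]
    exact l1_nonneg a

theorem l1_le {a : Polynomial ℤ} {d : ℕ} (hd : a.natDegree ≤ d) {H : ℝ}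
    (hH : ∀ i, |((a.coeff i : ℤ) : ℝ)| ≤ H) : l1 a ≤ (d + 1 : ℕ) * H := by
  rw [l1_of_subset a (s := range (d + 1))]
  · refine (Finset.sum_le_sum fun i _ => hH i).trans ?_
    rw [Finset.sum_const, card_range, nsmul_eq_mul]
  · intro i hi
    have := Polynomial.le_natDegree_of_mem_supp i hi
    rw [mem_range]
    omega

theorem l1_add (a b : Polynomial ℤ) : l1 (a + b) ≤ l1 a + l1 b := by
  classical
  rw [l1_of_subset (a + b) (s := a.support ∪ b.support) Polynomial.support_add,
    l1_of_subset a (s := a.support ∪ b.support) Finset.subset_union_left,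
    l1_of_subset b (s := a.support ∪ b.support) Finset.subset_union_right, ← Finset.sum_add_distrib]
  refine Finset.sum_le_sum fun i _ => ?_
  rw [Polynomial.coeff_add, Int.cast_add]
  exact abs_add_le _ _

theorem l1_zero : l1 0 = 0 := by simp [l1]

theorem l1_sum {A : Type} (s : Finset A) (f : A → Polynomial ℤ) :
    l1 (∑ i ∈ s, f i) ≤ ∑ i ∈ s, l1 (f i) := by
  classical
  induction s using Finset.induction_on with
  | empty => simp [l1_zero]
  | insert a s ha ih =>
    rw [Finset.sum_insert ha, Finset.sum_insert ha]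
    exact (l1_add _ _).trans (by linarith)

theorem l1_monomial (n : ℕ) (x : ℤ) : l1 (Polynomial.monomial n x) = |(x : ℝ)| := by
  classical
  rw [l1_of_subset _ (s := {n}) (Polynomial.support_monomial' n x), Finset.sum_singleton,
    Polynomial.coeff_monomial_same]

theorem l1_mul_monomial (a : Polynomial ℤ) (n : ℕ) (x : ℤ) :
    l1 (a * Polynomial.monomial n x) ≤ l1 a * |(x : ℝ)| := by
  classical
  have h1 : a * Polynomial.monomial n x =
      ∑ i ∈ a.support, Polynomial.monomial (i + n) (a.coeff i * x) := by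
    conv_lhs => rw [a.as_sum_support]
    rw [Finset.sum_mul]
    exact Finset.sum_congr rfl fun i _ => Polynomial.monomial_mul_monomial _ _ _ _
  rw [h1]
  refine (l1_sum _ _).trans ?_
  rw [l1, Finset.sum_mul]
  refine Finset.sum_le_sum fun i _ => ?_
  rw [l1_monomial, Int.cast_mul, abs_mul]

theorem l1_mul (a b : Polynomial ℤ) : l1 (a * b) ≤ l1 a * l1 b := by
  classical
  have h1 : a * b = ∑ i ∈ b.support, a * Polynomial.monomial i (b.coeff i) := by
    rw [← Finset.mul_sum, ← b.as_sum_support]
  rw [h1]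
  refine (l1_sum _ _).trans ?_
  conv_rhs => rw [l1, l1, Finset.mul_sum]
  exact Finset.sum_le_sum fun i _ => l1_mul_monomial a i _

theorem l1_one : l1 1 = 1 := by
  have h := l1_monomial 0 1
  rw [Polynomial.monomial_zero_one] at h
  simpa using h

theorem l1_prod {A : Type} (s : Finset A) (f : A → Polynomial ℤ) :
    l1 (∏ i ∈ s, f i) ≤ ∏ i ∈ s, l1 (f i) := by
  classical
  induction s using Finset.induction_on with
  | empty => simp [l1_one]
  | insert a s ha ih =>
    rw [Finset.prod_insert ha, Finset.prod_insert ha]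
    exact (l1_mul _ _).trans (mul_le_mul_of_nonneg_left ih (l1_nonneg _))

theorem l1_C_mul (x : ℤ) (a : Polynomial ℤ) : l1 (Polynomial.C x * a) ≤ |(x : ℝ)| * l1 a := by
  rw [mul_comm, mul_comm |(x : ℝ)|]
  have h := l1_mul_monomial a 0 x
  rwa [Polynomial.monomial_zero_left] at h

end Pool.Agent.Helper59.LE
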