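import Pool.Agent.Helper59.LU.Cp
import Pool.Agent.Helper59.LE.Pl

/-!
PROJECT ALLQ, block A over a number field: polynomials in the slopes and in `alpha`.
-/

set_option autoImplicit false

namespace Pool.Agent.Helper59.LE

open Finset
open Pool.Agent.Helper34.LT Pool.Agent.Helper13.LT Pool.Agent.Helper59.LT Pool.Agent.Helper59.LU

section

variable {I I' K : Type} [Fintype I'] [Fintype K]

/-- one term -/
noncomputable def tmA (r : I' → I) (x : ℤ) (a : Polynomial ℤ) (n : I' → ℕ) :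
    MvPolynomial (Option I) ℤ :=
  MvPolynomial.C x * (Polynomial.aeval (MvPolynomial.X none) a *
    ∏ i, MvPolynomial.X (some (r i)) ^ n i)

theorem tmA_aeval (r : I' → I) (x : ℤ) (a : Polynomial ℤ) (n : I' → ℕ) (W : Option I → ℂ) :
    MvPolynomial.aeval W (tmA r x a n) =
      (x : ℂ) * (Polynomial.aeval (W none) a * ∏ i, W (some (r i)) ^ n i) := by
  unfold tmA
  rw [map_mul, map_mul, map_prod, ← Polynomial.aeval_algHom_apply, MvPolynomial.aeval_X]
  simp only [map_pow, MvPolynomial.aeval_X, MvPolynomial.algHom_C, eq_intCast, map_intCast]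

theorem tmA_eq (r : I' → I) (x : ℤ) (a : Polynomial ℤ) (n : I' → ℕ) :
    tmA r x a n = ∑ i ∈ a.support, MvPolynomial.monomial
      (Finsupp.single none i + ∑ j, Finsupp.single (some (r j)) (n j)) (x * a.coeff i) := by
  classical
  have h1 : ∏ i, MvPolynomial.X (R := ℤ) (some (r i)) ^ n i =
      MvPolynomial.monomial (∑ j, Finsupp.single (some (r j)) (n j)) 1 := by
    rw [MvPolynomial.monomial_sum_one]
    exact Finset.prod_congr rfl fun i _ => MvPolynomial.X_pow_eq_monomial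
  have h2 : Polynomial.aeval (MvPolynomial.X (R := ℤ) (none : Option I)) a =
      ∑ i ∈ a.support, MvPolynomial.monomial (Finsupp.single none i) (a.coeff i) := by
    rw [Polynomial.aeval_def, Polynomial.eval₂_eq_sum, Polynomial.sum]
    refine Finset.sum_congr rfl fun i _ => ?_
    rw [MvPolynomial.X_pow_eq_monomial, MvPolynomial.algebraMap_eq, MvPolynomial.C_mul_monomial,
      mul_one]
  unfold tmA
  rw [h1, h2, Finset.sum_mul, Finset.mul_sum]
  refine Finset.sum_congr rfl fun i _ => ?_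
  rw [MvPolynomial.monomial_mul, mul_one, MvPolynomial.C_mul_monomial]

theorem tmA_deg (r : I' → I) (x : ℤ) (a : Polynomial ℤ) (n : I' → ℕ) {d : ℕ}
    (hd : a.natDegree ≤ d) : (tmA r x a n).totalDegree ≤ ∑ i, n i + d := by
  classical
  rw [tmA_eq]
  refine MvPolynomial.totalDegree_finsetSum_le fun i hi => ?_
  refine (MvPolynomial.totalDegree_monomial_le _ _).trans ?_
  have h1 := Polynomial.le_natDegree_of_mem_supp i hi
  rw [Finsupp.sum_add_index' (fun _ => rfl) (fun _ _ _ => rfl), Finsupp.sum_single_index rfl]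
  have h2 : (∑ j, Finsupp.single (some (r j)) (n j) : Option I →₀ ℕ).sum (fun _ e => e) =
      ∑ j, n j := by
    rw [← Finsupp.sum_finsetSum_index (fun _ => rfl) (fun _ _ _ => rfl)]
    exact Finset.sum_congr rfl fun j _ => Finsupp.sum_single_index rfl
  change i + (∑ j, Finsupp.single (some (r j)) (n j) : Option I →₀ ℕ).sum (fun _ e => e) ≤ _
  rw [h2]
  omega

theorem tmA_coeff (r : I' → I) (x : ℤ) (a : Polynomial ℤ) (n : I' → ℕ) (k : Option I →₀ ℕ) :
    |(((tmA r x a n).coeff k : ℤ) : ℝ)| ≤ |(x : ℝ)| * l1 a := by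
  classical
  rw [tmA_eq, MvPolynomial.coeff_sum, Int.cast_sum]
  refine (Finset.abs_sum_le_sum_abs _ _).trans ?_
  rw [l1, Finset.mul_sum]
  refine Finset.sum_le_sum fun i _ => ?_
  rw [MvPolynomial.coeff_monomial]
  split_ifs
  · rw [Int.cast_mul, abs_mul]
  · rw [Int.cast_zero, abs_zero]
    positivity

/-- the polynomials -/
noncomputable def ppolA (π : I' → K) (r : I' → I) (A : (I' → ℕ) → Polynomial ℤ) (p : K → ℕ) :
    MvPolynomial (Option I) ℤ :=
  ∑ n ∈ fib π p, tmA r (((∏ u, (p u).factorial) / ∏ i, (n i).factorial : ℕ) : ℤ) (A n) n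

theorem ppolA_deg (π : I' → K) (r : I' → I) {A : (I' → ℕ) → Polynomial ℤ} {d : ℕ}
    (hd : ∀ n, (A n).natDegree ≤ d) (p : K → ℕ) :
    (ppolA π r A p).totalDegree ≤ ∑ u, p u + d := by
  unfold ppolA
  refine MvPolynomial.totalDegree_finsetSum_le fun n hn => ?_
  rw [mem_fib] at hn
  refine (tmA_deg r _ _ _ (hd n)).trans ?_
  rw [← hn, psh_sum]

theorem fib_card (π : I' → K) (p : K → ℕ) :
    (fib π p).card ≤ (∑ u, p u + 1) ^ Fintype.card I' := by
  classical
  unfold fib
  refine (Finset.card_filter_le _ _).trans ?_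
  rw [Fintype.card_piFinset]
  calc ∏ i, (range (p (π i) + 1)).card ≤ ∏ _i : I', (∑ u, p u + 1) := by
        refine Finset.prod_le_prod' fun i _ => ?_
        rw [card_range]
        have : p (π i) ≤ ∑ u, p u := Finset.single_le_sum (f := p) (fun _ _ => Nat.zero_le _)
          (Finset.mem_univ _)
        omega
    _ = _ := by rw [Finset.prod_const, Finset.card_univ]

theorem ppolA_coeff (π : I' → K) (r : I' → I) {A : (I' → ℕ) → Polynomial ℤ} {p : K → ℕ} {H : ℝ}
    (hH : ∀ n : I' → ℕ, ∑ i, n i = ∑ u, p u → l1 (A n) ≤ H) (hH0 : 0 ≤ H) (k : Option I →₀ ℕ) :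
    |(((ppolA π r A p).coeff k : ℤ) : ℝ)| ≤ ((∑ u, p u + 1 : ℕ) : ℝ) ^ Fintype.card I' *
      ((∏ u, ((p u).factorial : ℝ)) * H) := by
  classical
  unfold ppolA
  rw [MvPolynomial.coeff_sum, Int.cast_sum]
  refine (Finset.abs_sum_le_sum_abs _ _).trans ?_
  have h1 : ∀ n ∈ fib π p, |(((tmA r (((∏ u, (p u).factorial) / ∏ i, (n i).factorial : ℕ) : ℤ)
      (A n) n).coeff k : ℤ) : ℝ)| ≤ (∏ u, ((p u).factorial : ℝ)) * H := by
    intro n hn
    refine (tmA_coeff r _ _ _ _).trans ?_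
    rw [mem_fib] at hn
    refine mul_le_mul ?_ (hH n (by rw [← hn, psh_sum])) (l1_nonneg _)
      (Finset.prod_nonneg fun _ _ => by positivity)
    rw [Int.cast_natCast, abs_of_nonneg (Nat.cast_nonneg _)]
    calc (((∏ u, (p u).factorial) / ∏ i, (n i).factorial : ℕ) : ℝ) ≤
          ((∏ u, (p u).factorial : ℕ) : ℝ) := by
          exact_mod_cast Nat.div_le_self _ _
      _ = _ := by push_cast; rfl
  refine (Finset.sum_le_sum h1).trans ?_
  rw [Finset.sum_const, nsmul_eq_mul]
  refine mul_le_mul_of_nonneg_right ?_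
    (mul_nonneg (Finset.prod_nonneg fun _ _ => by positivity) hH0)
  exact_mod_cast fib_card π p

theorem ppolA_aeval (π : I' → K) (r : I' → I) (A : (I' → ℕ) → Polynomial ℤ) (p : K → ℕ)
    (W : Option I → ℂ) :
    MvPolynomial.aeval W (ppolA π r A p) = ∑ n ∈ fib π p,
      (((∏ u, (p u).factorial : ℕ) : ℂ) / ((∏ i, (n i).factorial : ℕ) : ℂ) *
        Polynomial.aeval (W none) (A n)) * ∏ i, W (some (r i)) ^ n i := by
  unfold ppolA
  rw [map_sum]
  refine Finset.sum_congr rfl fun n hn => ?_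
  have h1 : ∏ i, (n i).factorial ∣ ∏ u, (p u).factorial := by
    rw [← (mem_fib π p n).1 hn]
    exact psh_dvd π n
  have h2 : ((∏ i, (n i).factorial : ℕ) : ℂ) ≠ 0 := by
    rw [Nat.cast_ne_zero]
    exact Finset.prod_ne_zero_iff.2 fun i _ => Nat.factorial_ne_zero _
  rw [tmA_aeval, Int.cast_natCast, Nat.cast_div h1 h2]
  ring

/-- `PS` with the polynomials as coefficients -/
theorem ppolA_PS (π : I' → K) (r : I' → I) {A : (I' → ℕ) → Polynomial ℤ} {α : ℂ} {D k : ℕ}
    {G : (I' → ℂ) → ℂ} (hA : PS (fun n => Polynomial.aeval α (A n) /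
      ((D : ℂ) ^ (∑ i, n i + k) * ∏ i, ((n i).factorial : ℂ))) G) (X : I → ℂ) :
    PS (fun p : K → ℕ => MvPolynomial.aeval (fun o : Option I => o.elim α X) (ppolA π r A p) /
        ((D : ℂ) ^ (∑ u, p u + k) * ∏ u, ((p u).factorial : ℂ)))
      (fun z => G fun i => X (r i) * z (π i)) := by
  have h1 := ps_fib π hA (fun i => X (r i))
  convert h1 using 2 with p
  rw [ppolA_aeval, Finset.sum_div]
  refine Finset.sum_congr rfl fun n hn => ?_
  have h2 : ∑ i, n i = ∑ u, p u := by rw [← (mem_fib π p n).1 hn, psh_sum]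
  have h3 : ((∏ u, (p u).factorial : ℕ) : ℂ) ≠ 0 := by
    rw [Nat.cast_ne_zero]
    exact Finset.prod_ne_zero_iff.2 fun i _ => Nat.factorial_ne_zero _
  have h4 : ((∏ i, (n i).factorial : ℕ) : ℂ) ≠ 0 := by
    rw [Nat.cast_ne_zero]
    exact Finset.prod_ne_zero_iff.2 fun i _ => Nat.factorial_ne_zero _
  rw [h2]
  simp only [Option.elim_none, Option.elim_some]
  rw [Nat.cast_prod] at h3 h4
  rw [Nat.cast_prod, Nat.cast_prod]
  by_cases hD : (D : ℂ) ^ (∑ u, p u + k) = 0
  · rw [hD]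
    simp
  · field_simp

end

end Pool.Agent.Helper59.LE
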