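import Pool.Agent.Helper53.LE.Df
import Pool.Agent.Helper59.LT.PolC
import Pool.Agent.Helper59.LE.Pa

/-!
PROJECT ALLQ, block A over a number field: the polynomials of `e` copies.
-/

set_option autoImplicit false

namespace Pool.Agent.Helper59.LE

open Finset
open Pool.Agent.Helper34.LT Pool.Agent.Helper13.LT Pool.Agent.Helper59.LT Pool.Agent.Helper59.LU
open Pool.Agent.Helper53.LE

section

variable {I K J : Type} [Fintype I] [Fintype K] [Fintype J]

theorem G0_A {e d D k : ℕ} {α : ℂ} {B : ℝ} (hB : 1 ≤ B) {Φ : J → (I → ℂ) → ℂ}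
    (hΦ : ∀ j, RTA α d B D k (Φ j)) (c : (Fin e → J) → ℤ) {M : ℝ} (hM0 : 0 ≤ M)
    (hM : ∀ a, |(c a : ℝ)| ≤ M) :
    ∃ A : (Fin e × I → ℕ) → Polynomial ℤ, (∀ n, (A n).natDegree ≤ e * d) ∧
      (∀ n, l1 (A n) ≤ (Fintype.card J : ℝ) ^ e * (M * (((d + 1 : ℕ) : ℝ) ^ e *
        (B ^ (∑ u, n u + e * k) * ((∑ u, n u + e * k).factorial : ℝ) ^ 3)))) ∧
      PS (fun n => Polynomial.aeval α (A n) /
        ((D : ℂ) ^ (∑ u, n u + e * k) * ∏ u, ((n u).factorial : ℂ))) (G0 Φ c) := by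
  classical
  choose A hA1 hA2 hA3 using hΦ
  have hS : ∀ n : Fin e × I → ℕ, ∑ u, n u + e * k = ∑ j, (∑ i, n (j, i) + k) := by
    intro n
    rw [Fintype.sum_prod_type, Finset.sum_add_distrib, Finset.sum_const, Finset.card_univ,
      Fintype.card_fin, smul_eq_mul]
  refine ⟨fun n => ∑ a, Polynomial.C (c a) * ∏ j, A (a j) (fun i => n (j, i)), fun n => ?_,
    fun n => ?_, ?_⟩
  · refine Polynomial.natDegree_sum_le_of_forall_le _ _ fun a _ => ?_
    refine (Polynomial.natDegree_C_mul_le _ _).trans ?_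
    refine (Polynomial.natDegree_prod_le _ _).trans ?_
    calc ∑ j, (A (a j) fun i => n (j, i)).natDegree ≤ ∑ _j : Fin e, d :=
          Finset.sum_le_sum fun j _ => hA1 _ _
      _ = e * d := by rw [Finset.sum_const, Finset.card_univ, Fintype.card_fin, smul_eq_mul]
  · refine (l1_sum _ _).trans ?_
    have h1 : ∀ a : Fin e → J, l1 (Polynomial.C (c a) * ∏ j, A (a j) (fun i => n (j, i))) ≤
        M * (((d + 1 : ℕ) : ℝ) ^ e *
          (B ^ (∑ u, n u + e * k) * ((∑ u, n u + e * k).factorial : ℝ) ^ 3)) := by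
      intro a
      refine (l1_C_mul _ _).trans (mul_le_mul (hM a) ?_ (l1_nonneg _) hM0)
      refine (l1_prod _ _).trans ?_
      calc ∏ j, l1 (A (a j) fun i => n (j, i)) ≤ ∏ j : Fin e, (((d + 1 : ℕ) : ℝ) *
            (B ^ (∑ i, n (j, i) + k) * ((∑ i, n (j, i) + k).factorial : ℝ) ^ 3)) :=
            Finset.prod_le_prod (fun j _ => l1_nonneg _) fun j _ =>
              l1_le (hA1 _ _) (hA2 (a j) fun i => n (j, i))
        _ = ((d + 1 : ℕ) : ℝ) ^ e * (B ^ (∑ u, n u + e * k) *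
            (∏ j : Fin e, ((∑ i, n (j, i) + k).factorial : ℝ)) ^ 3) := by
            rw [Finset.prod_mul_distrib, Finset.prod_mul_distrib, Finset.prod_const,
              Finset.card_univ, Fintype.card_fin, Finset.prod_pow_eq_pow_sum, hS n,
              Finset.prod_pow]
        _ ≤ _ := by
            refine mul_le_mul_of_nonneg_left ?_ (by positivity)
            refine mul_le_mul_of_nonneg_left ?_ (by positivity)
            refine pow_le_pow_left₀ (Finset.prod_nonneg fun _ _ => by positivity) ?_ _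
            have h2 := Nat.le_of_dvd (Nat.factorial_pos _)
              (Nat.prod_factorial_dvd_factorial_sum (univ : Finset (Fin e))
                (fun j => ∑ i, n (j, i) + k))
            rw [hS n]
            exact_mod_cast h2
    refine (Finset.sum_le_sum fun a _ => h1 a).trans ?_
    rw [Finset.sum_const, Finset.card_univ, nsmul_eq_mul, Fintype.card_fun, Fintype.card_fin]
    push_cast
    exact le_rfl
  · have h1 : ∀ j, PS (fun m : I → ℕ => Polynomial.aeval α (A j m) /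
        ((D : ℂ) ^ (∑ u, m u + k) * ∏ u, ((m u).factorial : ℂ))) (Φ j) := hA3
    have h2 := PS_sum (fun a : Fin e → J => PS_prod (e := e) (K := I) fun j => h1 (a j))
      (fun a => (c a : ℂ))
    convert h2 using 1
    · funext n
      rw [map_sum, Finset.sum_div]
      refine Finset.sum_congr rfl fun a _ => ?_
      rw [map_mul, map_prod, Polynomial.aeval_C, Finset.prod_div_distrib, Finset.prod_mul_distrib,
        Finset.prod_pow_eq_pow_sum, ← hS n, Fintype.prod_prod_type, eq_intCast, mul_div_assoc]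
    · rfl

theorem copies_polyA {e : ℕ} (π : I → K) {d D k : ℕ} {α : ℂ} {B : ℝ} (hB : 1 ≤ B) (hD : 1 ≤ D)
    {Φ : J → (I → ℂ) → ℂ} (hΦ : ∀ j, RTA α d B D k (Φ j)) {M : ℝ} (hM0 : 0 ≤ M)
    (c : (Fin e → J) → ℤ) (hM : ∀ a, |(c a : ℝ)| ≤ M) :
    ∃ P : (Fin e × K → ℕ) → MvPolynomial (Option I) ℤ,
      (∀ p, (P p).totalDegree ≤ ∑ u, p u + e * d) ∧
      (∀ p n, |(((P p).coeff n : ℤ) : ℝ)| ≤ ((∑ u, p u + 1 : ℕ) : ℝ) ^ (e * Fintype.card I) *
        ((∏ u, ((p u).factorial : ℝ)) * ((Fintype.card J : ℝ) ^ e * (M * (((d + 1 : ℕ) : ℝ) ^ e *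
        (B ^ (∑ u, p u + e * k) * ((∑ u, p u + e * k).factorial : ℝ) ^ 3)))))) ∧
      (∀ (X : I → ℂ) (ε : ℝ), (∀ x : Fin e → K → ℂ, (∀ i, ‖x i‖ ≤ 1) →
          ‖∑ a, (c a : ℂ) * ∏ i, Φ (a i) (fun u => X u * x i (π u))‖ ≤ ε) →
        ∀ p, ‖MvPolynomial.aeval (pα α X) (P p)‖ ≤
          ε * ((D : ℝ) ^ (∑ u, p u + e * k) * ∏ u, ((p u).factorial : ℝ))) ∧
      (∀ (X : I → ℂ) (T : ℕ), c ≠ 0 →
        (∀ p, (∀ u, p u ≤ T) → MvPolynomial.aeval (pα α X) (P p) = 0) →
        ∃ b : J → ℂ, b ≠ 0 ∧ ∀ x : K → ℂ, ∀ j ≤ T,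
          iteratedDeriv j (fun z : ℂ => ∑ a, b a * Φ a (fun u => X u * (z • x) (π u))) 0 = 0) := by
  classical
  obtain ⟨A, hA1, hA2, hA3⟩ := G0_A (e := e) hB hΦ c hM0 hM
  have hDr : (0 : ℝ) < (D : ℝ) := by exact_mod_cast hD
  have hps : ∀ X : I → ℂ, PS (fun p : Fin e × K → ℕ => MvPolynomial.aeval (pα α X)
      (ppolA (Prod.map id π : Fin e × I → Fin e × K) Prod.snd A p) / ((D : ℂ) ^ (∑ u, p u + e * k) *
        ∏ u, ((p u).factorial : ℂ)))
      (fun z => ∑ a, (c a : ℂ) * ∏ j, Φ (a j) (fun i => X i * z (j, π i))) := by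
    intro X
    exact ppolA_PS (Prod.map id π : Fin e × I → Fin e × K) Prod.snd hA3 X
  refine ⟨fun p => ppolA (Prod.map id π : Fin e × I → Fin e × K) Prod.snd A p, fun p => ?_,
    fun p n => ?_, fun X ε hX p => ?_, fun X T hc hz => ?_⟩
  · exact ppolA_deg _ _ hA1 p
  · have h1 := ppolA_coeff (Prod.map id π : Fin e × I → Fin e × K) (Prod.snd : Fin e × I → I)
      (A := A) (p := p) (H := (Fintype.card J : ℝ) ^ e * (M * (((d + 1 : ℕ) : ℝ) ^ e *
        (B ^ (∑ u, p u + e * k) * ((∑ u, p u + e * k).factorial : ℝ) ^ 3))))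
      (fun n hn => by rw [← hn]; exact hA2 n) (by positivity) n
    rw [Fintype.card_prod, Fintype.card_fin] at h1
    exact h1
  · have h1 := PS.bound (hps X) (R := 1) (B := ε) zero_le_one (fun z hz => by
      refine hX (fun i u => z (i, u)) fun i => ?_
      rw [pi_norm_le_iff_of_nonneg zero_le_one]
      exact fun u => (norm_le_pi_norm z _).trans hz) p
    rw [one_pow, mul_one, norm_div, norm_mul, norm_pow, Complex.norm_natCast, norm_prod] at h1
    simp only [Complex.norm_natCast] at h1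
    have hpos : (0 : ℝ) < (D : ℝ) ^ (∑ u, p u + e * k) * ∏ u, ((p u).factorial : ℝ) := by
      refine mul_pos (pow_pos hDr _) (Finset.prod_pos fun u _ => ?_)
      exact_mod_cast Nat.factorial_pos _
    rwa [div_le_iff₀ hpos] at h1
  · have hex : ∀ j, ∃ a : (I → ℕ) → ℂ, PS a (Φ j) := by
      intro j
      obtain ⟨A', _, _, hA'⟩ := hΦ j
      exact ⟨_, hA'⟩
    choose a ha using hex
    have h1 : ∀ j, PS (fun p : K → ℕ => ∑ n ∈ fib π p, a j n * ∏ i, X i ^ n i)
        (fun z => Φ j fun i => X i * z (π i)) := fun j => ps_fib π (ha j) X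
    obtain ⟨A1, hA1'⟩ : ∃ A1 : J → (K → ℕ) → ℂ, A1 = fun j p => ∑ n ∈ fib π p, a j n *
      ∏ i, X i ^ n i := ⟨_, rfl⟩
    have h1' : ∀ j, PS (A1 j) (fun z => Φ j fun i => X i * z (π i)) := by
      rw [hA1']
      exact h1
    have h2 : PS (fun p : Fin e × K → ℕ => ∑ x : Fin e → J, (c x : ℂ) *
        ∏ j, A1 (x j) (fun u => p (j, u)))
        (fun z => ∑ x : Fin e → J, (c x : ℂ) * ∏ j, Φ (x j) (fun i => X i * z (j, π i))) :=
      PS_sum (fun x : Fin e → J => PS_prod fun j => h1' (x j)) (fun x => (c x : ℂ))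
    have h3 := PS.unique (hps X) h2
    by_cases h4 : ∀ b : J → ℂ, (∀ p : K → Fin (T + 1), ∑ j, b j * A1 j (fun u => (p u : ℕ)) = 0) →
        b = 0
    · exfalso
      have h5 := tensor (e := e) (B := K → Fin (T + 1)) (fun j p => A1 j fun u => (p u : ℕ)) h4
        (fun x => (c x : ℂ)) (fun p => by
          have h6 := congrFun h3 (fun x => (p x.1 x.2 : ℕ))
          simp only at h6
          rw [hz _ (fun u => by have := (p u.1 u.2).2; omega), zero_div] at h6
          exact h6.symm)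
      apply hc
      funext x
      have h6 := congrFun h5 x
      simpa using h6
    · push Not at h4
      obtain ⟨b, hb, hb0⟩ := h4
      refine ⟨b, hb0, fun x j hj => ?_⟩
      have h5 : PS (fun p : K → ℕ => ∑ i, b i * A1 i p)
          (fun z => ∑ i, b i * Φ i fun u => X u * z (π u)) := PS_sum h1' b
      refine line_zero h5 x j fun p hp => ?_
      have h6 : ∀ u, p u < T + 1 := by
        intro u
        have : p u ≤ ∑ u, p u := Finset.single_le_sum (f := p) (fun _ _ => Nat.zero_le _)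
          (Finset.mem_univ u)
        omega
      exact hb (fun u => ⟨p u, h6 u⟩)

end

end Pool.Agent.Helper59.LE
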