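import Pool.Agent.Helper59.LU.Am
import Pool.Agent.Helper59.LE.Ae

/-!
PROJECT ALLQ, block A over a number field: the polynomials (from the properties of the vector
functions).
-/

set_option autoImplicit false

namespace Pool.Agent.Helper59.LE

open Finset
open Pool.Agent.Helper34.LT Pool.Agent.Helper13.LT Pool.Agent.Helper59.LT Pool.Agent.Helper59.LU LTG
open Pool.Agent.Helper34.LU Pool.Agent.Helper53.LE

theorem fact_bound {T M n : ℕ} (hT : 1 ≤ T) (hn : n ≤ (M + 1) * T) :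
    ((n.factorial : ℕ) : ℝ) ≤
      Real.exp ((M + 1) * (Real.log (M + 1) + 1) * (T * Real.log (T + 2))) := by
  have hl := log_ge_one hT
  have hTr : (1 : ℝ) ≤ (T : ℝ) := by exact_mod_cast hT
  have hM0 : (0 : ℝ) ≤ (M : ℝ) := Nat.cast_nonneg M
  have h1 : n.factorial ≤ ((M + 1) * T) ^ ((M + 1) * T) :=
    (Nat.factorial_le hn).trans (Nat.factorial_le_pow _)
  have h2 : ((n.factorial : ℕ) : ℝ) ≤ (((M : ℝ) + 1) * T) ^ ((M + 1) * T) := by
    exact_mod_cast h1
  refine h2.trans ?_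
  have h3 : (0 : ℝ) < ((M : ℝ) + 1) * T := by positivity
  rw [← Real.rpow_natCast, Real.rpow_def_of_pos h3]
  refine Real.exp_le_exp.2 ?_
  rw [Real.log_mul (by positivity) (by positivity)]
  push_cast
  have h4 : Real.log T ≤ Real.log (T + 2) := Real.log_le_log (by linarith) (by linarith)
  have h5 : 0 ≤ Real.log ((M : ℝ) + 1) := Real.log_nonneg (by linarith)
  have h6 : Real.log ((M : ℝ) + 1) + Real.log T ≤
      (Real.log ((M : ℝ) + 1) + 1) * Real.log (T + 2) := by nlinarith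
  have h7 : (0 : ℝ) ≤ ((M : ℝ) + 1) * T := by positivity
  calc (Real.log ((M : ℝ) + 1) + Real.log T) * (((M : ℝ) + 1) * T)
      ≤ ((Real.log ((M : ℝ) + 1) + 1) * Real.log (T + 2)) * (((M : ℝ) + 1) * T) :=
        mul_le_mul_of_nonneg_right h6 h7
    _ = ((M : ℝ) + 1) * (Real.log ((M : ℝ) + 1) + 1) * (T * Real.log (T + 2)) := by ring

theorem pow_le_exp {B : ℝ} (hB : 1 ≤ B) {T M n : ℕ} (hT : 1 ≤ T) (hn : n ≤ (M + 1) * T) :
    B ^ n ≤ Real.exp (Real.log B * (M + 1) * (T * Real.log (T + 2))) := by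
  have hl := log_ge_one hT
  have hTr : (1 : ℝ) ≤ (T : ℝ) := by exact_mod_cast hT
  have hlB : 0 ≤ Real.log B := Real.log_nonneg hB
  rw [← Real.rpow_natCast, Real.rpow_def_of_pos (by linarith)]
  refine Real.exp_le_exp.2 ?_
  have h1 : (n : ℝ) ≤ ((M : ℝ) + 1) * T := by exact_mod_cast hn
  have h2 : (T : ℝ) ≤ T * Real.log (T + 2) := by nlinarith
  have hM0 : (0 : ℝ) ≤ (M : ℝ) := Nat.cast_nonneg M
  calc Real.log B * n ≤ Real.log B * (((M : ℝ) + 1) * (T * Real.log (T + 2))) := by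
        refine mul_le_mul_of_nonneg_left (h1.trans ?_) hlB
        exact mul_le_mul_of_nonneg_left h2 (by linarith)
    _ = _ := by ring

theorem A_mainA_of (q : ℕ) (s t : Finset ℕ) (f : (s → ℂ) → ℂ) (g : (t → ℂ) → ℂ)
    (hs : HS q s) (ht : HS q t) (α : ℂ)
    (hrt : ∃ (d : ℕ) (B : ℝ) (D : ℕ), 1 ≤ B ∧ 1 ≤ D ∧ ∀ (L : ℕ) (j : JJ s t L),
      RTA α d B D (q * L + 2) (Vx f g j))
    (e : ℕ) :
    ∃ C : ℝ, 1 ≤ C ∧ ∀ L T : ℕ, 1 ≤ L → L ≤ T → ∀ c : (Fin e → JJ s t L) → ℤ, c ≠ 0 →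
      (∀ k, |(c k : ℝ)| ≤ Real.exp (T * Real.log (T + 2))) →
      ∃ (N : ℕ) (P : Fin N → MvPolynomial (Option (II s t)) ℤ),
        (N : ℝ) ≤ Real.exp (C * T) ∧ (∀ m, ((P m).totalDegree : ℝ) ≤ C * T) ∧
        (∀ m k, |(((P m).coeff k : ℤ) : ℝ)| ≤ Real.exp (C * T * Real.log (T + 2))) ∧
        (∀ (X : II s t → ℂ) (U : ℝ),
          (∀ x : Fin e → UU q → ℂ, (∀ i, ‖x i‖ ≤ 1) →
            ‖∑ k, (c k : ℂ) * ∏ i, Vx f g (k i) (wv hs ht X (x i))‖ ≤
              Real.exp (-U)) →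
          ∀ m, ‖MvPolynomial.aeval (pα α X) (P m)‖ ≤
            Real.exp (C * T * Real.log (T + 2) - U)) ∧
        (∀ X : II s t → ℂ, (∀ m, MvPolynomial.aeval (pα α X) (P m) = 0) →
          ∃ b : JJ s t L → ℂ, b ≠ 0 ∧ ∀ x : UU q → ℂ, ∀ j ≤ T,
            iteratedDeriv j
              (fun z : ℂ => ∑ k, b k * Vx f g k (wv hs ht X (z • x))) 0 = 0) := by
  obtain ⟨d, B, D, hB, hD, hRT⟩ := hrt
  obtain ⟨m, hm⟩ : ∃ m : ℕ, m = Fintype.card (Fin e × UU q) := ⟨_, rfl⟩
  obtain ⟨i, hi⟩ : ∃ i : ℕ, i = Fintype.card (II s t) := ⟨_, rfl⟩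
  obtain ⟨v, hv⟩ : ∃ v : ℕ, v = Fintype.card s + Fintype.card t := ⟨_, rfl⟩
  obtain ⟨b, hb⟩ : ∃ b : ℝ, b = Real.log D * (m + (e * (q + 2) : ℕ)) + m := ⟨_, rfl⟩
  obtain ⟨M, hM⟩ : ∃ M : ℕ, M = m + e * (q + 2) := ⟨_, rfl⟩
  obtain ⟨y, hy⟩ : ∃ y : ℝ, y = Real.log B * (M + 1) +
    3 * ((M + 1) * (Real.log (M + 1) + 1)) := ⟨_, rfl⟩
  have hlD : 0 ≤ Real.log D := Real.log_nonneg (by exact_mod_cast hD)
  have hlB : 0 ≤ Real.log B := Real.log_nonneg hB
  have hMr : (0 : ℝ) ≤ (M : ℝ) := Nat.cast_nonneg M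
  have hlM : 0 ≤ Real.log ((M : ℝ) + 1) := Real.log_nonneg (by linarith)
  have hb0 : 0 ≤ b := by
    rw [hb]
    positivity
  have hy0 : 0 ≤ y := by
    rw [hy]
    positivity
  obtain ⟨C, hC⟩ : ∃ C : ℝ, C = (e * i : ℕ) * m + m + (e * v : ℕ) + 1 + (e * d : ℕ) + y + b :=
    ⟨_, rfl⟩
  have hm0 : (0 : ℝ) ≤ m := Nat.cast_nonneg m
  have hz1 : (0 : ℝ) ≤ (e * i : ℕ) * m := by positivity
  have hz2 : (0 : ℝ) ≤ (e * v : ℕ) := by positivity
  have hz3 : (0 : ℝ) ≤ (e * d : ℕ) := by positivity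
  have hC1 : 1 ≤ C := by rw [hC]; linarith
  have hC2 : (m : ℝ) ≤ C := by rw [hC]; linarith
  have hC3 : (m : ℝ) + (e * d : ℕ) ≤ C := by rw [hC]; linarith
  have hC4 : b ≤ C := by rw [hC]; linarith
  refine ⟨C, hC1, fun L T hL hLT c hc hcB => ?_⟩
  have hT : 1 ≤ T := hL.trans hLT
  have hTr : (1 : ℝ) ≤ (T : ℝ) := by exact_mod_cast hT
  have hLr : (1 : ℝ) ≤ (L : ℝ) := by exact_mod_cast hL
  have hLTr : (L : ℝ) ≤ (T : ℝ) := by exact_mod_cast hLT
  have hl := log_ge_one hT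
  obtain ⟨w, hw⟩ : ∃ w : ℝ, w = T * Real.log (T + 2) := ⟨_, rfl⟩
  have hxT : (T : ℝ) ≤ w := by rw [hw]; nlinarith
  have hw1 : 1 ≤ w := hTr.trans hxT
  obtain ⟨P, p1, p2, p3, p4⟩ := copies_polyA (e := e) (pj hs ht) hB hD (hRT L)
    (Real.exp_pos _).le c hcB
  have hk : e * (q * L + 2) ≤ e * (q + 2) * T := by
    rw [mul_assoc]
    refine Nat.mul_le_mul_left _ ?_
    have h1 : q * L ≤ q * T := Nat.mul_le_mul_left _ hLT
    calc q * L + 2 ≤ q * T + 2 * T := by omega
      _ = (q + 2) * T := by ring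
  have hfac : ∀ p : Fin e × UU q → ℕ, (∀ u, p u ≤ T) → (D : ℝ) ^ (∑ u, p u + e * (q * L + 2)) *
      ∏ u, ((p u).factorial : ℝ) ≤ Real.exp (b * w) := by
    intro p hp
    have h1 := fac_bound hD hk hT p hp
    rw [← hm, ← hw, ← hb] at h1
    exact h1
  have hfac' : ∀ p : Fin e × UU q → ℕ, (∀ u, p u ≤ T) →
      ∏ u, ((p u).factorial : ℝ) ≤ Real.exp (m * w) := by
    intro p hp
    have h1 := fac_bound (D := 1) (k := 0) (k' := 0) le_rfl (Nat.zero_le _) hT p hp
    rw [← hm, ← hw] at h1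
    simpa using h1
  have hsum : ∀ p : Fin e × UU q → ℕ, (∀ u, p u ≤ T) → ∑ u, p u ≤ m * T := by
    intro p hp
    calc ∑ u, p u ≤ ∑ _u : Fin e × UU q, T := Finset.sum_le_sum fun u _ => hp u
      _ = m * T := by rw [Finset.sum_const, Finset.card_univ, smul_eq_mul, hm]
  have hsum' : ∀ p : Fin e × UU q → ℕ, (∀ u, p u ≤ T) →
      ∑ u, p u + e * (q * L + 2) ≤ (M + 1) * T := by
    intro p hp
    have h1 := hsum p hp
    calc ∑ u, p u + e * (q * L + 2) ≤ m * T + e * (q + 2) * T := by omega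
      _ = M * T := by rw [hM]; ring
      _ ≤ (M + 1) * T := Nat.mul_le_mul_right _ (Nat.le_succ M)
  let eN := Fintype.equivFin (Fin e × UU q → Fin (T + 1))
  refine ⟨Fintype.card (Fin e × UU q → Fin (T + 1)),
    fun a => P (fun u => ((eN.symm a u : Fin (T + 1)) : ℕ)), ?_, ?_, ?_, ?_, ?_⟩
  · rw [Fintype.card_fun, Fintype.card_fin, ← hm]
    push_cast
    calc ((T : ℝ) + 1) ^ m ≤ Real.exp T ^ m :=
          pow_le_pow_left₀ (by positivity) (Real.add_one_le_exp _) m
      _ = Real.exp (m * T) := pow_exp _ _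
      _ ≤ Real.exp (C * T) :=
          Real.exp_le_exp.2 (mul_le_mul_of_nonneg_right hC2 (by linarith))
  · intro a
    have h1 := (p1 (fun u => ((eN.symm a u : Fin (T + 1)) : ℕ))).trans
      (Nat.add_le_add_right (hsum _ fun u => Nat.lt_succ_iff.1 (eN.symm a u).2) _)
    have h2 : (((P (fun u => ((eN.symm a u : Fin (T + 1)) : ℕ))).totalDegree : ℕ) : ℝ) ≤
        m * T + (e * d : ℕ) := by exact_mod_cast h1
    refine h2.trans ?_
    calc (m : ℝ) * T + (e * d : ℕ) ≤ m * T + (e * d : ℕ) * T := by nlinarith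
      _ = (m + (e * d : ℕ)) * T := by ring
      _ ≤ C * T := mul_le_mul_of_nonneg_right hC3 (by linarith)
  · intro a n
    obtain ⟨p, hp⟩ : ∃ p : Fin e × UU q → ℕ, p = fun u => ((eN.symm a u : Fin (T + 1)) : ℕ) :=
      ⟨_, rfl⟩
    have hpT : ∀ u, p u ≤ T := by
      intro u
      rw [hp]
      exact Nat.lt_succ_iff.1 (eN.symm a u).2
    change |(((P (fun u => ((eN.symm a u : Fin (T + 1)) : ℕ))).coeff n : ℤ) : ℝ)| ≤ _
    rw [← hp]
    refine (p2 p n).trans ?_
    have a1 : ((∑ u, p u + 1 : ℕ) : ℝ) ^ (e * Fintype.card (II s t)) ≤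
        Real.exp ((e * i : ℕ) * (m * w)) := by
      rw [← hi, ← pow_exp]
      refine pow_le_pow_left₀ (by positivity) ?_ _
      have h1 : ((∑ u, p u : ℕ) : ℝ) ≤ m * T := by exact_mod_cast hsum p hpT
      have h2 := Real.add_one_le_exp ((m : ℝ) * T)
      have h3 : Real.exp ((m : ℝ) * T) ≤ Real.exp (m * w) :=
        Real.exp_le_exp.2 (mul_le_mul_of_nonneg_left hxT hm0)
      push_cast at h1 ⊢
      linarith
    have a2 : (Fintype.card (JJ s t L) : ℝ) ^ e ≤ Real.exp ((e * v : ℕ) * w) := by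
      rw [Fintype.card_prod, Fintype.card_fun, Fintype.card_fun, Fintype.card_fin, ← pow_add,
        ← hv]
      push_cast
      rw [← pow_mul]
      calc ((L : ℝ) + 1) ^ (v * e) ≤ Real.exp w ^ (v * e) := by
            refine pow_le_pow_left₀ (by positivity) ?_ _
            have h1 := Real.add_one_le_exp (L : ℝ)
            exact h1.trans (Real.exp_le_exp.2 (hLTr.trans hxT))
        _ = Real.exp (e * v * w) := by
            rw [pow_exp]
            congr 1
            push_cast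
            ring
    have a3 : ((d + 1 : ℕ) : ℝ) ^ e ≤ Real.exp ((e * d : ℕ) * w) := by
      calc ((d + 1 : ℕ) : ℝ) ^ e ≤ Real.exp d ^ e := by
            refine pow_le_pow_left₀ (by positivity) ?_ _
            push_cast
            exact Real.add_one_le_exp _
        _ = Real.exp (e * d) := pow_exp _ _
        _ ≤ Real.exp ((e * d : ℕ) * w) := by
            refine Real.exp_le_exp.2 ?_
            push_cast
            exact le_mul_of_one_le_right (by positivity) hw1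
    have a4 : B ^ (∑ u, p u + e * (q * L + 2)) *
        ((∑ u, p u + e * (q * L + 2)).factorial : ℝ) ^ 3 ≤ Real.exp (y * w) := by
      have h1 := pow_le_exp hB hT (hsum' p hpT)
      have h2 := fact_bound hT (hsum' p hpT)
      rw [← hw] at h1 h2
      calc _ ≤ Real.exp (Real.log B * (M + 1) * w) *
            Real.exp ((M + 1) * (Real.log (M + 1) + 1) * w) ^ 3 :=
            mul_le_mul h1 (pow_le_pow_left₀ (by positivity) h2 _) (by positivity)
              (Real.exp_pos _).le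
        _ = Real.exp (y * w) := by
            rw [pow_exp, ← Real.exp_add, hy]
            congr 1
            push_cast
            ring
    rw [← hw]
    calc _ ≤ Real.exp ((e * i : ℕ) * (m * w)) * (Real.exp (m * w) * (Real.exp ((e * v : ℕ) * w) *
          (Real.exp w * (Real.exp ((e * d : ℕ) * w) * Real.exp (y * w))))) := by
          refine mul_le_mul a1 ?_ (by positivity) (by positivity)
          refine mul_le_mul (hfac' p hpT) ?_ (by positivity) (by positivity)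
          refine mul_le_mul a2 ?_ (by positivity) (by positivity)
          refine mul_le_mul_of_nonneg_left ?_ (Real.exp_pos _).le
          exact mul_le_mul a3 a4 (by positivity) (by positivity)
      _ = Real.exp (((e * i : ℕ) * m + m + (e * v : ℕ) + 1 + (e * d : ℕ) + y) * w) := by
          rw [← Real.exp_add, ← Real.exp_add, ← Real.exp_add, ← Real.exp_add, ← Real.exp_add]
          congr 1
          ring
      _ ≤ Real.exp (C * T * Real.log (T + 2)) := by
          refine Real.exp_le_exp.2 ?_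
          rw [mul_assoc, ← hw]
          refine mul_le_mul_of_nonneg_right ?_ (by linarith)
          rw [hC]
          linarith
  · intro X U hX a
    obtain ⟨p, hp⟩ : ∃ p : Fin e × UU q → ℕ, p = fun u => ((eN.symm a u : Fin (T + 1)) : ℕ) :=
      ⟨_, rfl⟩
    have hpT : ∀ u, p u ≤ T := by
      intro u
      rw [hp]
      exact Nat.lt_succ_iff.1 (eN.symm a u).2
    change ‖MvPolynomial.aeval (pα α X) (P (fun u => ((eN.symm a u : Fin (T + 1)) : ℕ)))‖ ≤ _
    rw [← hp]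
    refine (p3 X (Real.exp (-U)) hX p).trans ?_
    calc Real.exp (-U) * _ ≤ Real.exp (-U) * Real.exp (b * w) :=
          mul_le_mul_of_nonneg_left (hfac p hpT) (Real.exp_pos _).le
      _ = Real.exp (b * w - U) := by
          rw [← Real.exp_add]
          congr 1
          ring
      _ ≤ Real.exp (C * T * Real.log (T + 2) - U) := by
          refine Real.exp_le_exp.2 ?_
          rw [mul_assoc, ← hw]
          have : b * w ≤ C * w := mul_le_mul_of_nonneg_right hC4 (by linarith)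
          linarith
  · intro X hX
    refine p4 X T hc fun p hp => ?_
    have h1 := hX (eN (fun u => ⟨p u, Nat.lt_succ_of_le (hp u)⟩))
    simp only [Equiv.symm_apply_apply] at h1
    exact h1

end Pool.Agent.Helper59.LE
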