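import Pool.Agent.Helper59.LE.Ae

/-!
PROJECT ALLQ: rules for `RTA`.
-/

set_option autoImplicit false

namespace Pool.Agent.Helper59.LE

open Finset
open Pool.Agent.Helper34.LT Pool.Agent.Helper13.LT Pool.Agent.Helper59.LT Pool.Agent.Helper59.LU
open Pool.Agent.Helper53.LE

section

variable {I J : Type} [Fintype I] [Fintype J]

theorem RTA.ps {α : ℂ} {d D k : ℕ} {B : ℝ} {f : (I → ℂ) → ℂ} (h : RTA α d B D k f) :
    ∃ a : (I → ℕ) → ℂ, PS a f := by
  obtain ⟨A, _, _, hA⟩ := h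
  exact ⟨_, hA⟩

/-- larger constants -/
theorem RTA_up {α : ℂ} {d d' D E k k' : ℕ} {B B' : ℝ} (hB : 1 ≤ B) (hD : 1 ≤ D) (hE : 1 ≤ E)
    (hd : d ≤ d') (hk : k ≤ k') (hBB : B * D * E ≤ B') {f : (I → ℂ) → ℂ}
    (h : RTA α d B D k f) : RTA α d' B' (D * E) k' f := by
  obtain ⟨A, h1, h2, h3⟩ := h
  have hDr : (1 : ℝ) ≤ (D : ℝ) := by exact_mod_cast hD
  have hEr : (1 : ℝ) ≤ (E : ℝ) := by exact_mod_cast hE
  refine ⟨fun m => Polynomial.C (((D : ℤ) ^ (k' - k) * (E : ℤ) ^ (∑ u, m u + k'))) * A m,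
    fun m => ?_, fun m i => ?_, fun z => ?_⟩
  · exact ((Polynomial.natDegree_C_mul_le _ _).trans (h1 m)).trans hd
  · rw [Polynomial.coeff_C_mul, Int.cast_mul, abs_mul]
    push_cast
    rw [abs_of_nonneg (by positivity : (0 : ℝ) ≤ (D : ℝ) ^ (k' - k) * (E : ℝ) ^ (∑ u, m u + k'))]
    have a1 : (D : ℝ) ^ (k' - k) ≤ (D : ℝ) ^ (∑ u, m u + k') :=
      pow_le_pow_right₀ hDr (by omega)
    have a2 : B ^ (∑ u, m u + k) ≤ B ^ (∑ u, m u + k') := pow_le_pow_right₀ hB (by omega)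
    have a3 : ((∑ u, m u + k).factorial : ℝ) ^ 3 ≤ ((∑ u, m u + k').factorial : ℝ) ^ 3 := by
      refine pow_le_pow_left₀ (by positivity) ?_ _
      exact_mod_cast Nat.factorial_le (by omega)
    calc (D : ℝ) ^ (k' - k) * (E : ℝ) ^ (∑ u, m u + k') * |(((A m).coeff i : ℤ) : ℝ)|
        ≤ (D : ℝ) ^ (∑ u, m u + k') * (E : ℝ) ^ (∑ u, m u + k') *
          (B ^ (∑ u, m u + k') * ((∑ u, m u + k').factorial : ℝ) ^ 3) := by
          refine mul_le_mul (mul_le_mul_of_nonneg_right a1 (by positivity)) ?_ (abs_nonneg _)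
            (by positivity)
          exact (h2 m i).trans (mul_le_mul a2 a3 (by positivity) (by positivity))
      _ = (B * D * E) ^ (∑ u, m u + k') * ((∑ u, m u + k').factorial : ℝ) ^ 3 := by
          rw [mul_pow, mul_pow]
          ring
      _ ≤ B' ^ (∑ u, m u + k') * ((∑ u, m u + k').factorial : ℝ) ^ 3 := by
          refine mul_le_mul_of_nonneg_right (pow_le_pow_left₀ (by positivity) hBB _)
            (by positivity)
  · refine (h3 z).congr_fun fun m => ?_
    have hD0 : (D : ℂ) ≠ 0 := Nat.cast_ne_zero.2 (by omega)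
    have hE0 : (E : ℂ) ≠ 0 := Nat.cast_ne_zero.2 (by omega)
    have e1 : (D : ℂ) ^ (∑ u, m u + k') = (D : ℂ) ^ (k' - k) * (D : ℂ) ^ (∑ u, m u + k) := by
      rw [← pow_add]
      congr 1
      omega
    rw [map_mul, Polynomial.aeval_C, eq_intCast]
    push_cast
    rw [mul_pow, e1]
    have e2 : (D : ℂ) ^ (k' - k) ≠ 0 := pow_ne_zero _ hD0
    have e3 : (E : ℂ) ^ (∑ u, m u + k') ≠ 0 := pow_ne_zero _ hE0
    have e4 : (D : ℂ) ^ (∑ u, m u + k) ≠ 0 := pow_ne_zero _ hD0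
    have e5 : ∏ u, ((m u).factorial : ℂ) ≠ 0 :=
      prod_ne_zero_iff.2 fun u _ => Nat.cast_ne_zero.2 (Nat.factorial_ne_zero _)
    field_simp

/-- more variables -/
theorem RTA_emb {α : ℂ} {d D k : ℕ} {B : ℝ} (hB : 1 ≤ B) {F : (I → ℂ) → ℂ}
    (h : RTA α d B D k F) (e : I → J) (he : Function.Injective e) :
    RTA α d B D k (fun x : J → ℂ => F fun i => x (e i)) := by
  classical
  obtain ⟨A, h1, h2, hA⟩ := h
  have hinj : Function.Injective (fun m : I → ℕ => (Function.extend e m 0 : J → ℕ)) := by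
    intro m m' hm
    funext i
    have := congrFun hm (e i)
    simpa only [he.extend_apply] using this
  refine ⟨fun n => if n ∈ Set.range (fun m : I → ℕ => Function.extend e m 0) then
    A (fun i => n (e i)) else 0, fun n => ?_, fun n i => ?_, fun x => ?_⟩
  · dsimp only
    split_ifs
    · exact h1 _
    · simp
  · dsimp only
    split_ifs with hn
    · obtain ⟨m, rfl⟩ := hn
      have h3 : (fun i => Function.extend e m 0 (e i)) = m := by
        funext i
        rw [he.extend_apply]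
      dsimp only
      rw [h3, sum_extend e he m]
      exact h2 m i
    · simp only [Polynomial.coeff_zero, Int.cast_zero, abs_zero]
      positivity
  · rw [← hinj.hasSum_iff]
    · convert hA (fun i => x (e i)) using 1
      funext m
      have h3 : (fun i => Function.extend e m 0 (e i)) = m := by
        funext i
        rw [he.extend_apply]
      simp only [Function.comp_apply]
      rw [if_pos ⟨m, rfl⟩, h3, sum_extend e he m,
        prod_extend e he (fun _ n => ((n.factorial : ℕ) : ℂ)) (fun _ => by simp) m,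
        prod_extend e he (fun j n => x j ^ n) (fun _ => pow_zero _) m]
    · intro n hn
      simp only [if_neg hn, map_zero, zero_div, zero_mul]

/-- products in disjoint groups of variables -/
theorem RTA_disj {α : ℂ} {d d' D k k' : ℕ} {B B' : ℝ} (hB : 1 ≤ B) (hB' : 1 ≤ B')
    (hk : 1 ≤ k + k') {f : (I → ℂ) → ℂ} {g : (J → ℂ) → ℂ}
    (hf : RTA α d B D k f) (hg : RTA α d' B' D k' g) :
    RTA α (d + d') (((d + 1 : ℕ) : ℝ) * ((d' + 1 : ℕ) : ℝ) * (B * B')) D (k + k')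
      (fun x : I ⊕ J → ℂ => f (fun i => x (Sum.inl i)) * g (fun j => x (Sum.inr j))) := by
  obtain ⟨A, a1, a2, a3⟩ := hf
  obtain ⟨A', b1, b2, b3⟩ := hg
  have hS : ∀ n : I ⊕ J → ℕ, ∑ u, n u + (k + k') =
      (∑ i, n (Sum.inl i) + k) + (∑ j, n (Sum.inr j) + k') := by
    intro n
    rw [Fintype.sum_sum_type]
    ring
  have hd1 : (1 : ℝ) ≤ ((d + 1 : ℕ) : ℝ) * ((d' + 1 : ℕ) : ℝ) := by
    have e1 : (1 : ℝ) ≤ ((d + 1 : ℕ) : ℝ) := by exact_mod_cast Nat.le_add_left 1 d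
    have e2 : (1 : ℝ) ≤ ((d' + 1 : ℕ) : ℝ) := by exact_mod_cast Nat.le_add_left 1 d'
    nlinarith
  refine ⟨fun n => A (fun i => n (Sum.inl i)) * A' (fun j => n (Sum.inr j)), fun n => ?_,
    fun n i => ?_, fun x => ?_⟩
  · exact Polynomial.natDegree_mul_le.trans (Nat.add_le_add (a1 _) (b1 _))
  · refine (coeff_le_l1 _ i).trans ((l1_mul _ _).trans ?_)
    obtain ⟨x, hx⟩ : ∃ x, x = ∑ i, n (Sum.inl i) + k := ⟨_, rfl⟩
    obtain ⟨y, hy⟩ : ∃ y, y = ∑ j, n (Sum.inr j) + k' := ⟨_, rfl⟩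
    have e1 := l1_le (a1 fun i => n (Sum.inl i)) (a2 fun i => n (Sum.inl i))
    have e2 := l1_le (b1 fun j => n (Sum.inr j)) (b2 fun j => n (Sum.inr j))
    rw [hS n]
    rw [← hx] at e1 ⊢
    rw [← hy] at e2 ⊢
    have hxy : 1 ≤ x + y := by omega
    have e3 : (x.factorial : ℝ) * (y.factorial : ℝ) ≤ ((x + y).factorial : ℝ) := by
      exact_mod_cast Nat.le_of_dvd (Nat.factorial_pos _) (Nat.factorial_mul_factorial_dvd_factorial_add x y)
    have e4 : ((d + 1 : ℕ) : ℝ) * ((d' + 1 : ℕ) : ℝ) ≤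
        (((d + 1 : ℕ) : ℝ) * ((d' + 1 : ℕ) : ℝ)) ^ (x + y) :=
      le_self_pow₀ hd1 (by omega)
    calc l1 (A fun i => n (Sum.inl i)) * l1 (A' fun j => n (Sum.inr j))
        ≤ (((d + 1 : ℕ) : ℝ) * (B ^ x * (x.factorial : ℝ) ^ 3)) *
          (((d' + 1 : ℕ) : ℝ) * (B' ^ y * (y.factorial : ℝ) ^ 3)) :=
          mul_le_mul e1 e2 (l1_nonneg _) (by positivity)
      _ = (((d + 1 : ℕ) : ℝ) * ((d' + 1 : ℕ) : ℝ)) * (B ^ x * B' ^ y) *
          ((x.factorial : ℝ) * (y.factorial : ℝ)) ^ 3 := by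
          rw [mul_pow]
          ring
      _ ≤ (((d + 1 : ℕ) : ℝ) * ((d' + 1 : ℕ) : ℝ)) ^ (x + y) * (B ^ (x + y) * B' ^ (x + y)) *
          (((x + y).factorial : ℝ)) ^ 3 := by
          refine mul_le_mul (mul_le_mul e4 ?_ (by positivity) (by positivity))
            (pow_le_pow_left₀ (by positivity) e3 _) (by positivity) (by positivity)
          exact mul_le_mul (pow_le_pow_right₀ hB (by omega)) (pow_le_pow_right₀ hB' (by omega))
            (by positivity) (by positivity)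
      _ = _ := by
          rw [mul_pow _ (B * B'), mul_pow B B']
  · have h1 := hasSum_pair _ _ _ _ (a3 fun i => x (Sum.inl i)) (b3 fun j => x (Sum.inr j))
    rw [← (Equiv.sumArrowEquivProdArrow I J ℕ).hasSum_iff] at h1
    refine h1.congr_fun fun n => ?_
    simp only [Function.comp_apply, Equiv.sumArrowEquivProdArrow, Equiv.coe_fn_mk]
    rw [hS n, Fintype.prod_sum_type, Fintype.prod_sum_type, map_mul, pow_add]
    simp only [Function.comp_def]
    ring

end

end Pool.Agent.Helper59.LE
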