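import Pool.Agent.Helper59.LE.Ra
import Pool.Agent.Helper59.LE.Am
import Pool.Agent.Helper96.LU.Vr

/-!
PROJECT ALLQ: the vector functions satisfy `RTA`.
-/

set_option autoImplicit false

namespace Pool.Agent.Helper59.LE

open Finset
open Pool.Agent.Helper34.LT Pool.Agent.Helper13.LT Pool.Agent.Helper59.LT Pool.Agent.Helper59.LU LTG
open Pool.Agent.Helper34.LU Pool.Agent.Helper53.LE Pool.Agent.Helper96.LU

section

variable {ι : Type} [Fintype ι]

theorem vx_term (D n : ℕ) (hD : 1 ≤ D) (k a c : ι → ℕ) (hc : c ≤ k) (y : ℂ) (z w : ι → ℂ) :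
    (((-1) ^ (∑ u, c u) * (∏ u, ((k u).choose (c u) : ℂ)) * (∏ u, ((c u).factorial : ℂ)) *
      (D : ℂ) ^ (2 * ∑ u, c u)) * y) /
      ((D : ℂ) ^ (∑ u, a u + ∑ u, c u + (∑ u, k u + n)) *
        ((∏ u, ((a u).factorial : ℂ)) * ∏ u, ((c u).factorial : ℂ))) *
      ((∏ u, z u ^ a u) * ∏ u, w u ^ c u) =
    (∏ u, ((((k - c) u + c u).choose (c u) : ℕ) : ℂ)) * (∏ u, (-w u) ^ c u) *
      ((∏ u, (((k - c) u).factorial : ℂ)) *
        ((y / ((D : ℂ) ^ (∑ u, (a + (k - c)) u + n) * ∏ u, (((a + (k - c)) u).factorial : ℂ)) *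
          ∏ u, ((a u + (k - c) u).choose ((k - c) u) : ℂ)) * ∏ u, z u ^ a u)) := by
  have hD0 : (D : ℂ) ≠ 0 := Nat.cast_ne_zero.2 (by omega)
  have e1 : ∀ u, (k - c) u + c u = k u := by
    intro u
    have h0 : c u ≤ k u := hc u
    rw [Pi.sub_apply]
    omega
  have e2 : ∏ u, (-w u) ^ c u = (-1) ^ (∑ u, c u) * ∏ u, w u ^ c u := by
    rw [← Finset.prod_pow_eq_pow_sum, ← Finset.prod_mul_distrib]
    exact Finset.prod_congr rfl fun u _ => neg_pow _ _
  have e3 : ∏ u, (((a + (k - c)) u).factorial : ℂ) = (∏ u, ((a u).factorial : ℂ)) *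
      (∏ u, (((k - c) u).factorial : ℂ)) * ∏ u, ((a u + (k - c) u).choose ((k - c) u) : ℂ) := by
    rw [← Finset.prod_mul_distrib, ← Finset.prod_mul_distrib]
    refine Finset.prod_congr rfl fun u _ => ?_
    have h3 := Nat.add_choose_mul_factorial_mul_factorial (a u) ((k - c) u)
    rw [Pi.add_apply, ← h3]
    push_cast
    ring
  have e4 : (∑ u, a u + ∑ u, c u + (∑ u, k u + n)) =
      (∑ u, (a + (k - c)) u + n) + 2 * ∑ u, c u := by
    have h1 : ∑ u, k u = ∑ u, (k - c) u + ∑ u, c u := by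
      rw [← Finset.sum_add_distrib]
      exact Finset.sum_congr rfl fun u _ => (e1 u).symm
    have h2 : ∑ u, (a + (k - c)) u = ∑ u, a u + ∑ u, (k - c) u := by
      simp only [Pi.add_apply, Finset.sum_add_distrib]
    rw [h1, h2]
    ring
  have f1 : ∏ u, ((a u).factorial : ℂ) ≠ 0 :=
    prod_ne_zero_iff.2 fun u _ => Nat.cast_ne_zero.2 (Nat.factorial_ne_zero _)
  have f2 : ∏ u, ((c u).factorial : ℂ) ≠ 0 :=
    prod_ne_zero_iff.2 fun u _ => Nat.cast_ne_zero.2 (Nat.factorial_ne_zero _)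
  have f3 : ∏ u, (((k - c) u).factorial : ℂ) ≠ 0 :=
    prod_ne_zero_iff.2 fun u _ => Nat.cast_ne_zero.2 (Nat.factorial_ne_zero _)
  have f4 : ∏ u, ((a u + (k - c) u).choose ((k - c) u) : ℂ) ≠ 0 :=
    prod_ne_zero_iff.2 fun u _ => Nat.cast_ne_zero.2
      (Nat.choose_pos (Nat.le_add_left _ _)).ne'
  have f5 : (D : ℂ) ^ (∑ u, (a + (k - c)) u + n) ≠ 0 := pow_ne_zero _ hD0
  have f6 : (D : ℂ) ^ (2 * ∑ u, c u) ≠ 0 := pow_ne_zero _ hD0
  simp only [e1]
  rw [e2, e3, e4, pow_add]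
  field_simp

open Classical in
theorem vx_RTA {α : ℂ} {d D n : ℕ} {B : ℝ} (hB : 1 ≤ B) (hD : 1 ≤ D) {f : (ι → ℂ) → ℂ}
    (h : RTA α d B D n f) (k : ι → ℕ) :
    RTA α d (2 * D ^ 2 * B) D (∑ u, k u + n) (vx f k) := by
  obtain ⟨A, h1, h2, h3⟩ := h
  have hDr : (1 : ℝ) ≤ (D : ℝ) := by exact_mod_cast hD
  have hφ : PS (fun m => Polynomial.aeval α (A m) /
      ((D : ℂ) ^ (∑ u, m u + n) * ∏ u, ((m u).factorial : ℂ))) f := h3
  obtain ⟨φ, hφe⟩ : ∃ φ : (ι → ℕ) → ℂ, φ = fun m => Polynomial.aeval α (A m) /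
      ((D : ℂ) ^ (∑ u, m u + n) * ∏ u, ((m u).factorial : ℂ)) := ⟨_, rfl⟩
  rw [← hφe] at hφ
  refine ⟨fun m => if (fun u => m (Sum.inr u)) ≤ k then
      Polynomial.C ((-1) ^ (∑ u, m (Sum.inr u)) * (∏ u, (((k u).choose (m (Sum.inr u)) : ℕ) : ℤ)) *
        (∏ u, (((m (Sum.inr u)).factorial : ℕ) : ℤ)) * (D : ℤ) ^ (2 * ∑ u, m (Sum.inr u))) *
        A ((fun u => m (Sum.inl u)) + (k - fun u => m (Sum.inr u)))
      else 0, fun m => ?_, fun m i => ?_, fun x => ?_⟩
  · dsimp only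
    split_ifs
    · exact (Polynomial.natDegree_C_mul_le _ _).trans (h1 _)
    · simp
  · dsimp only
    split_ifs with hm
    · rw [Polynomial.coeff_C_mul, Int.cast_mul, abs_mul]
      obtain ⟨a, ha⟩ : ∃ a : ι → ℕ, a = fun u => m (Sum.inl u) := ⟨_, rfl⟩
      obtain ⟨c, hc⟩ : ∃ c : ι → ℕ, c = fun u => m (Sum.inr u) := ⟨_, rfl⟩
      have hc' : ∀ u, m (Sum.inr u) = c u := fun u => by rw [hc]
      have hSm : ∑ u, m u = ∑ u, a u + ∑ u, c u := by
        rw [Fintype.sum_sum_type, ha, hc]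
      rw [← hc] at hm ⊢
      rw [← ha]
      simp only [hc']
      rw [hSm]
      obtain ⟨N, hN⟩ : ∃ N : ℕ, N = ∑ u, a u + ∑ u, c u + (∑ u, k u + n) := ⟨_, rfl⟩
      rw [← hN]
      have e1 : ∀ u, (k - c) u + c u = k u := by
        intro u
        have h0 : c u ≤ k u := hm u
        rw [Pi.sub_apply]
        omega
      have g1 : ∑ u, k u = ∑ u, (k - c) u + ∑ u, c u := by
        rw [← Finset.sum_add_distrib]
        exact Finset.sum_congr rfl fun u _ => (e1 u).symm
      have g2 : ∑ u, (a + (k - c)) u = ∑ u, a u + ∑ u, (k - c) u := by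
        simp only [Pi.add_apply, Finset.sum_add_distrib]
      obtain ⟨M, hM⟩ : ∃ M : ℕ, M = ∑ u, (a + (k - c)) u + n := ⟨_, rfl⟩
      have q1 : |((((-1) ^ (∑ u, c u) * (∏ u, (((k u).choose (c u) : ℕ) : ℤ)) *
          (∏ u, (((c u).factorial : ℕ) : ℤ)) * (D : ℤ) ^ (2 * ∑ u, c u) : ℤ)) : ℝ)| ≤
          2 ^ N * ((∑ u, c u).factorial : ℝ) * ((D : ℝ) ^ 2) ^ N := by
        push_cast
        rw [abs_mul, abs_mul, abs_mul, abs_pow, abs_neg, abs_one, one_pow, one_mul]
        rw [abs_of_nonneg (Finset.prod_nonneg fun _ _ => Nat.cast_nonneg _),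
          abs_of_nonneg (Finset.prod_nonneg fun _ _ => Nat.cast_nonneg _),
          abs_of_nonneg (by positivity : (0 : ℝ) ≤ (D : ℝ) ^ (2 * ∑ u, c u))]
        refine mul_le_mul (mul_le_mul ?_ ?_ (Finset.prod_nonneg fun _ _ => Nat.cast_nonneg _)
          (by positivity)) ?_ (by positivity) (by positivity)
        · calc ∏ u, (((k u).choose (c u) : ℕ) : ℝ) ≤ ∏ u, (2 : ℝ) ^ k u := by
                refine Finset.prod_le_prod (fun _ _ => Nat.cast_nonneg _) fun u _ => ?_
                exact_mod_cast Nat.choose_le_two_pow (k u) (c u)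
            _ = 2 ^ (∑ u, k u) := Finset.prod_pow_eq_pow_sum _ _ _
            _ ≤ 2 ^ N := pow_le_pow_right₀ (by norm_num) (by omega)
        · have r1 := Nat.le_of_dvd (Nat.factorial_pos _)
            (Nat.prod_factorial_dvd_factorial_sum (univ : Finset ι) c)
          exact_mod_cast r1
        · rw [pow_mul]
          exact pow_le_pow_right₀ (one_le_pow₀ hDr) (by omega)
      have q2 := h2 (a + (k - c)) i
      rw [← hM] at q2
      have q3 : ((∑ u, c u).factorial : ℝ) * (M.factorial : ℝ) ^ 3 ≤ (N.factorial : ℝ) ^ 3 := by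
        have r1 : (1 : ℝ) ≤ ((∑ u, c u).factorial : ℝ) := by
          exact_mod_cast Nat.factorial_pos _
        have r2 : ((∑ u, c u).factorial : ℝ) * (M.factorial : ℝ) ≤ (N.factorial : ℝ) := by
          have s1 := Nat.le_of_dvd (Nat.factorial_pos _)
            (Nat.factorial_mul_factorial_dvd_factorial_add (∑ u, c u) M)
          have s2 : (∑ u, c u + M).factorial ≤ N.factorial := Nat.factorial_le (by omega)
          exact_mod_cast s1.trans s2
        calc ((∑ u, c u).factorial : ℝ) * (M.factorial : ℝ) ^ 3 ≤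
              ((∑ u, c u).factorial : ℝ) ^ 3 * (M.factorial : ℝ) ^ 3 :=
              mul_le_mul_of_nonneg_right (le_self_pow₀ r1 (by norm_num)) (by positivity)
          _ = (((∑ u, c u).factorial : ℝ) * (M.factorial : ℝ)) ^ 3 := by rw [mul_pow]
          _ ≤ (N.factorial : ℝ) ^ 3 := pow_le_pow_left₀ (by positivity) r2 _
      have q4 : B ^ M ≤ B ^ N := pow_le_pow_right₀ hB (by omega)
      refine (mul_le_mul q1 q2 (abs_nonneg _) (by positivity)).trans ?_
      calc 2 ^ N * ((∑ u, c u).factorial : ℝ) * ((D : ℝ) ^ 2) ^ N * (B ^ M * (M.factorial : ℝ) ^ 3)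
          = 2 ^ N * ((D : ℝ) ^ 2) ^ N * B ^ M *
            (((∑ u, c u).factorial : ℝ) * (M.factorial : ℝ) ^ 3) := by ring
        _ ≤ 2 ^ N * ((D : ℝ) ^ 2) ^ N * B ^ N * (N.factorial : ℝ) ^ 3 :=
            mul_le_mul (mul_le_mul_of_nonneg_left q4 (by positivity)) q3 (by positivity)
              (by positivity)
        _ = (2 * (D : ℝ) ^ 2 * B) ^ N * (N.factorial : ℝ) ^ 3 := by
            rw [mul_pow, mul_pow]
    · simp only [Polynomial.coeff_zero, Int.cast_zero, abs_zero]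
      positivity
  · rw [vx_eq hφ]
    have h4 : ∀ p ∈ adg k, HasSum (fun ac : (ι → ℕ) × (ι → ℕ) => if ac.2 = p.2 then
        (∏ u, (((p.1 u + p.2 u).choose (p.2 u) : ℕ) : ℂ)) * (∏ u, (-x (Sum.inr u)) ^ p.2 u) *
          ((∏ u, ((p.1 u).factorial : ℂ)) * ((φ (ac.1 + p.1) *
            ∏ u, ((ac.1 u + p.1 u).choose (p.1 u) : ℂ)) * ∏ u, x (Sum.inl u) ^ ac.1 u)) else 0)
        ((∏ u, (((p.1 u + p.2 u).choose (p.2 u) : ℕ) : ℂ)) * (∏ u, (-x (Sum.inr u)) ^ p.2 u) *
          ((∏ u, ((p.1 u).factorial : ℂ)) * gb φ p.1 (fun u => x (Sum.inl u)))) := by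
      intro p _
      have hinj : Function.Injective (fun a : ι → ℕ => (a, p.2)) := fun a a' haa =>
        congrArg Prod.fst haa
      rw [← hinj.hasSum_iff]
      · have h5 := (((ps_gb hφ p.1) (fun u => x (Sum.inl u))).mul_left
          (∏ u, ((p.1 u).factorial : ℂ))).mul_left
          ((∏ u, (((p.1 u + p.2 u).choose (p.2 u) : ℕ) : ℂ)) * (∏ u, (-x (Sum.inr u)) ^ p.2 u))
        refine h5.congr_fun fun a => ?_
        simp only [Function.comp_apply, if_true]
      · rintro ⟨a, c⟩ hac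
        have hcp : c ≠ p.2 := by
          rintro rfl
          exact hac ⟨a, rfl⟩
        simp only [if_neg hcp]
    have h5 := hasSum_sum h4
    rw [← (Equiv.sumArrowEquivProdArrow ι ι ℕ).hasSum_iff] at h5
    refine h5.congr_fun fun m => ?_
    simp only [Function.comp_apply, Equiv.sumArrowEquivProdArrow, Equiv.coe_fn_mk]
    by_cases hm : (fun u => m (Sum.inr u)) ≤ k
    · rw [if_pos hm, Finset.sum_eq_single (k - (fun u => m (Sum.inr u)), fun u => m (Sum.inr u))]
      · have h6 := vx_term D n hD k (fun u => m (Sum.inl u)) (fun u => m (Sum.inr u)) hm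
          (Polynomial.aeval α (A ((fun u => m (Sum.inl u)) + (k - fun u => m (Sum.inr u)))))
          (fun u => x (Sum.inl u)) (fun u => x (Sum.inr u))
        have e0 : (m ∘ Sum.inr = (k - fun u => m (Sum.inr u), fun u => m (Sum.inr u)).2) := rfl
        rw [if_pos e0, hφe, Fintype.sum_sum_type, Fintype.prod_sum_type, Fintype.prod_sum_type,
          map_mul, Polynomial.aeval_C, eq_intCast]
        push_cast
        exact h6
      · rintro ⟨p1, p2⟩ hp hne
        refine if_neg ?_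
        intro h7
        apply hne
        have h8 := mem_adg.1 hp
        simp only at h7 h8
        rw [← h8, ← h7]
        ext u
        · simp
        · rfl
      · intro h7
        exact absurd (mem_adg.2 (by
          funext u
          have h0 : m (Sum.inr u) ≤ k u := hm u
          simp only [Pi.add_apply, Pi.sub_apply]
          omega)) h7
    · rw [if_neg hm, map_zero, zero_div, zero_mul]
      symm
      refine Finset.sum_eq_zero fun p hp => if_neg ?_
      intro h7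
      apply hm
      have h8 := mem_adg.1 hp
      change (m ∘ Sum.inr) ≤ k
      rw [h7, ← h8]
      intro u
      exact Nat.le_add_left _ _

end

end Pool.Agent.Helper59.LE
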