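import Pool.Agent.Helper59.LE.Vr

/-!
PROJECT ALLQ: `V_rtA` and `A_main_E`.
-/

set_option autoImplicit false

namespace Pool.Agent.Helper59.LE

open Finset
open Pool.Agent.Helper34.LT Pool.Agent.Helper13.LT Pool.Agent.Helper59.LT Pool.Agent.Helper59.LU LTG
open Pool.Agent.Helper34.LU Pool.Agent.Helper53.LE Pool.Agent.Helper96.LU

/-- the coordinates of the two types -/
def em (s t : Finset ℕ) : (s ⊕ s) ⊕ (t ⊕ t) → II s t :=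
  Sum.elim (Sum.elim (fun u => Sum.inl (Sum.inl u)) (fun u => Sum.inr (Sum.inl u)))
    (Sum.elim (fun v => Sum.inl (Sum.inr v)) (fun v => Sum.inr (Sum.inr v)))

theorem em_inj (s t : Finset ℕ) : Function.Injective (em s t) := by
  rintro ((a | a) | (a | a)) ((b | b) | (b | b)) hab <;> simp [em] at hab ⊢ <;> exact hab

theorem V_rtA (α : ℂ) (q : ℕ) (s t : Finset ℕ) (hs : HS q s) (ht : HS q t)
    (f : (s → ℂ) → ℂ) (g : (t → ℂ) → ℂ) (h1 : RTx α f) (h2 : RTx α g) :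
    ∃ (d : ℕ) (B : ℝ) (D : ℕ), 1 ≤ B ∧ 1 ≤ D ∧ ∀ (L : ℕ) (j : JJ s t L),
      RTA α d B D (q * L + 2) (Vx f g j) := by
  obtain ⟨d1, B1, D1, hB1, hD1, hf⟩ := h1
  obtain ⟨d2, B2, D2, hB2, hD2, hg⟩ := h2
  have hD : 1 ≤ D1 * D2 := Nat.mul_pos hD1 hD2
  have hD1r : (1 : ℝ) ≤ (D1 : ℝ) := by exact_mod_cast hD1
  have hD2r : (1 : ℝ) ≤ (D2 : ℝ) := by exact_mod_cast hD2
  obtain ⟨b1, hb1⟩ : ∃ b1 : ℝ, b1 = 2 * (D1 : ℝ) ^ 2 * B1 := ⟨_, rfl⟩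
  obtain ⟨b2, hb2⟩ : ∃ b2 : ℝ, b2 = 2 * (D2 : ℝ) ^ 2 * B2 := ⟨_, rfl⟩
  have h1b1 : 1 ≤ b1 := by
    rw [hb1]
    have : (1 : ℝ) ≤ (D1 : ℝ) ^ 2 := one_le_pow₀ hD1r
    nlinarith
  have h1b2 : 1 ≤ b2 := by
    rw [hb2]
    have : (1 : ℝ) ≤ (D2 : ℝ) ^ 2 := one_le_pow₀ hD2r
    nlinarith
  obtain ⟨y1, hy1⟩ : ∃ y1 : ℝ, y1 = b1 * D1 * D2 := ⟨_, rfl⟩
  obtain ⟨y2, hy2⟩ : ∃ y2 : ℝ, y2 = b2 * D2 * D1 := ⟨_, rfl⟩
  have h1y1 : 1 ≤ y1 := by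
    rw [hy1]
    exact one_le_mul_of_one_le_of_one_le (one_le_mul_of_one_le_of_one_le h1b1 hD1r) hD2r
  have h1y2 : 1 ≤ y2 := by
    rw [hy2]
    exact one_le_mul_of_one_le_of_one_le (one_le_mul_of_one_le_of_one_le h1b2 hD2r) hD1r
  obtain ⟨y, hy⟩ : ∃ y : ℝ, y = ((d1 + 1 : ℕ) : ℝ) * ((d2 + 1 : ℕ) : ℝ) * (y1 * y2) := ⟨_, rfl⟩
  have h1y : 1 ≤ y := by
    rw [hy]
    have e1 : (1 : ℝ) ≤ ((d1 + 1 : ℕ) : ℝ) := by exact_mod_cast Nat.le_add_left 1 d1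
    have e2 : (1 : ℝ) ≤ ((d2 + 1 : ℕ) : ℝ) := by exact_mod_cast Nat.le_add_left 1 d2
    exact one_le_mul_of_one_le_of_one_le (one_le_mul_of_one_le_of_one_le e1 e2)
      (one_le_mul_of_one_le_of_one_le h1y1 h1y2)
  have hDr : (1 : ℝ) ≤ ((D1 * D2 : ℕ) : ℝ) := by exact_mod_cast hD
  refine ⟨d1 + d2, y * (D1 * D2 : ℕ), D1 * D2 * 1,
    one_le_mul_of_one_le_of_one_le h1y hDr, by rw [mul_one]; exact hD, fun L j => ?_⟩
  have f1 := vx_RTA hB1 hD1 hf (fun u => (j.1 u : ℕ))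
  have f2 := vx_RTA hB2 hD2 hg (fun v => (j.2 v : ℕ))
  rw [← hb1] at f1
  rw [← hb2] at f2
  have g1 := RTA_up h1b1 hD1 hD2 le_rfl le_rfl (le_of_eq hy1.symm) f1
  have g2 := RTA_up h1b2 hD2 hD1 le_rfl le_rfl (le_of_eq hy2.symm) f2
  rw [mul_comm D2 D1] at g2
  have g3 := RTA_disj h1y1 h1y2 (by omega) g1 g2
  rw [← hy] at g3
  have g4 := RTA_emb h1y g3 (em s t) (em_inj s t)
  have k1 : ∑ u : s, (j.1 u : ℕ) ≤ s.card * L := by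
    calc ∑ u : s, (j.1 u : ℕ) ≤ ∑ _u : s, L := sum_le_sum fun u _ => by omega
      _ = s.card * L := by simp
  have k2 : ∑ u : t, (j.2 u : ℕ) ≤ t.card * L := by
    calc ∑ u : t, (j.2 u : ℕ) ≤ ∑ _u : t, L := sum_le_sum fun u _ => by omega
      _ = t.card * L := by simp
  have k3 : s.card + t.card ≤ q := by
    have a := card_HS hs
    have b := card_HS ht
    omega
  have k4 : s.card * L + t.card * L ≤ q * L := by
    rw [← add_mul]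
    exact Nat.mul_le_mul_right _ k3
  have g5 := RTA_up (k' := q * L + 2) (B' := y * (D1 * D2 : ℕ)) h1y hD le_rfl le_rfl
    (by omega) (by rw [Nat.cast_one, mul_one]) g4
  have h3 : (fun x : II s t → ℂ => vx f (fun u => (j.1 u : ℕ)) (fun i => x (em s t (Sum.inl i))) *
      vx g (fun v => (j.2 v : ℕ)) (fun i => x (em s t (Sum.inr i)))) = Vx f g j := by
    funext x
    rw [Vx]
    have e1 : (fun i => x (em s t (Sum.inl i))) =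
        Sum.elim (fun u => x (Sum.inl (Sum.inl u))) (fun u => x (Sum.inr (Sum.inl u))) := by
      funext i
      rcases i with i | i <;> rfl
    have e2 : (fun i => x (em s t (Sum.inr i))) =
        Sum.elim (fun u => x (Sum.inl (Sum.inr u))) (fun u => x (Sum.inr (Sum.inr u))) := by
      funext i
      rcases i with i | i <;> rfl
    rw [e1, e2]
  rw [← h3]
  exact g5

variable (q : ℕ) (s t : Finset ℕ) (ρ1 ρ2 : ℕ → ℂ) (κ1 : s → ℂ) (κ2 : t → ℂ)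
  (c1 c2 : Polynomial ℤ → ℂ) (f : (s → ℂ) → ℂ) (g : (t → ℂ) → ℂ)

/-- as `A_main`, the polynomials have the additional variable `α` -/
theorem A_main_E (α : ℂ) (h1 : IsThA α q s ρ1 κ1 c1 f) (h2 : IsThA α q t ρ2 κ2 c2 g) (e : ℕ)
    (_he : 1 ≤ e) :
    ∃ C : ℝ, 1 ≤ C ∧ ∀ L T : ℕ, 1 ≤ L → L ≤ T → ∀ c : (Fin e → JJ s t L) → ℤ, c ≠ 0 →
      (∀ k, |(c k : ℝ)| ≤ Real.exp (T * Real.log (T + 2))) →
      ∃ (N : ℕ) (P : Fin N → MvPolynomial (Option (II s t)) ℤ),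
        (N : ℝ) ≤ Real.exp (C * T) ∧ (∀ m, ((P m).totalDegree : ℝ) ≤ C * T) ∧
        (∀ m k, |(((P m).coeff k : ℤ) : ℝ)| ≤ Real.exp (C * T * Real.log (T + 2))) ∧
        (∀ (X : II s t → ℂ) (U : ℝ),
          (∀ x : Fin e → UU q → ℂ, (∀ i, ‖x i‖ ≤ 1) →
            ‖∑ k, (c k : ℂ) * ∏ i, Vx f g (k i) (wv h1.half h2.half X (x i))‖ ≤
              Real.exp (-U)) →
          ∀ m, ‖MvPolynomial.aeval (pα α X) (P m)‖ ≤
            Real.exp (C * T * Real.log (T + 2) - U)) ∧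
        (∀ X : II s t → ℂ, (∀ m, MvPolynomial.aeval (pα α X) (P m) = 0) →
          ∃ b : JJ s t L → ℂ, b ≠ 0 ∧ ∀ x : UU q → ℂ, ∀ j ≤ T,
            iteratedDeriv j
              (fun z : ℂ => ∑ k, b k * Vx f g k (wv h1.half h2.half X (z • x))) 0 = 0) :=
  A_mainA_of q s t f g h1.half h2.half α
    (V_rtA α q s t h1.half h2.half f g h1.rta h2.rta) e

end Pool.Agent.Helper59.LE
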